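import Pool.Agent.Work.MP_db9399_sc.Interface

/-!
# Block STEP: one round, with forbidden edges and vertices (from TUT and HIT)
-/

set_option autoImplicit false

namespace Pool.Agent.Work.MP_db9399_sc.helper6

open Finset Classical
open Pool.Agent.Work.MP_db9399_all (nb)
open Pool.Agent.Work.MP_db9399_dn (NB IsMat Tot)

universe u

/-- BLOCK STEP -/
theorem stmt_STEP (hTUT : Stmt_TUT.{u}) (hHIT : Stmt_HIT.{u}) : Stmt_STEP.{u} := by
  intro η hη hη1
  obtain ⟨d1, h1⟩ := hTUT η hη hη1
  obtain ⟨d2, h2⟩ := hHIT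
  refine ⟨max (max d1 d2) 1, ?_⟩
  intro V _ G D d X hd hdeg hNB hD hX
  have hd1 : d1 ≤ d := le_trans (le_trans (le_max_left _ _) (le_max_left _ _)) hd
  have hd2 : d2 ≤ d := le_trans (le_trans (le_max_right _ _) (le_max_left _ _)) hd
  have hd3 : 1 ≤ d := le_trans (le_max_right _ _) hd
  have hd' : (1 : ℝ) ≤ d := by exact_mod_cast hd3
  have hmem : ∀ (H : SimpleGraph V) (v w : V), w ∈ nb H v ↔ H.Adj v w := by
    intro H v w
    simp [nb]
  -- degrees
  have hsub1 : ∀ v, nb (G \ D) v ⊆ nb G v := by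
    intro v w hw
    rw [hmem] at hw ⊢
    exact hw.1
  have hdegF : ∀ v, (nb (G \ D) v).card ≤ d := fun v =>
    le_trans (Finset.card_le_card (hsub1 v)) (hdeg v)
  have hloss : ∀ v, ((nb G v).card : ℝ) - η / 50 * d ≤
      ((nb (G \ D) v ∩ (univ \ X)).card : ℝ) := by
    intro v
    have hs : nb G v ⊆ (nb (G \ D) v ∩ (univ \ X)) ∪ (nb D v ∪ (nb G v ∩ X)) := by
      intro w hw
      rw [hmem] at hw
      rw [Finset.mem_union, Finset.mem_union, Finset.mem_inter, Finset.mem_inter, Finset.mem_sdiff,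
        hmem, hmem, hmem]
      by_cases hDw : D.Adj v w
      · exact Or.inr (Or.inl hDw)
      · by_cases hXw : w ∈ X
        · exact Or.inr (Or.inr ⟨hw, hXw⟩)
        · exact Or.inl ⟨⟨hw, hDw⟩, Finset.mem_univ _, hXw⟩
    have h3 : (nb G v).card ≤ (nb (G \ D) v ∩ (univ \ X)).card +
        ((nb D v).card + (nb G v ∩ X).card) :=
      le_trans (Finset.card_le_card hs) (le_trans (Finset.card_union_le _ _)
        (Nat.add_le_add_left (Finset.card_union_le _ _) _))
    have h4 : ((nb G v).card : ℝ) ≤ ((nb (G \ D) v ∩ (univ \ X)).card : ℝ) +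
        (((nb D v).card : ℝ) + ((nb G v ∩ X).card : ℝ)) := by exact_mod_cast h3
    have h5 := hD v
    have h6 := hX v
    linarith
  have hbig : ∀ v ∈ Hv η G d \ X, (1 - η / 16 - η / 50) * d ≤
      ((nb (G \ D) v ∩ (univ \ X)).card : ℝ) := by
    intro v hv
    have h3 : (1 - η / 16) * d ≤ ((nb G v).card : ℝ) := by
      have := (Finset.mem_sdiff.1 hv).1
      rw [Hv, Finset.mem_filter] at this
      exact this.2
    have h4 := hloss v
    nlinarith
  have henv : Env G (G \ D) d (univ \ X) (Hv η G d \ X) := by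
    refine ⟨sdiff_le, hdeg, Finset.sdiff_subset_sdiff (Finset.subset_univ _) (le_refl _), ?_⟩
    intro v hv
    have h3 := hbig v hv
    have h4 : (999 * d : ℝ) ≤ 1000 * ((nb (G \ D) v ∩ (univ \ X)).card : ℝ) := by
      nlinarith
    exact_mod_cast h4
  obtain ⟨Cs, hFam, hO⟩ := h2 G (G \ D) d (univ \ X) (Hv η G d \ X) hd2 henv
  refine ⟨Cs, hFam, ?_⟩
  intro O hOC
  obtain ⟨M, hM1, hM2, hM3, hM4⟩ := h1 (G \ D) d (univ \ X) (Hv η G d \ X) O hd1 henv.LU hdegF
    (by
      intro v hv
      have h3 := hbig v hv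
      nlinarith)
    (by
      intro S T _ hT hdis hST
      by_contra hcon
      push Not at hcon
      have hT0 : (0 : ℝ) < T.card := by
        by_contra h0
        have h3 : (T.card : ℝ) = 0 := le_antisymm (not_lt.1 h0) (by positivity)
        rw [h3, mul_zero] at hcon
        exact absurd hcon (not_lt.2 (by positivity))
      have h3 := hNB S T hdis (fun t ht => (Finset.mem_sdiff.1 (hT ht)).1) hcon.le
      have h4 : ∀ t ∈ T, ((nb G t \ S).card : ℝ) ≤ η / 50 * d := by
        intro t ht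
        have hs : nb G t \ S ⊆ nb D t ∪ (nb G t ∩ X) := by
          intro w hw
          rw [Finset.mem_sdiff, hmem] at hw
          rw [Finset.mem_union, Finset.mem_inter, hmem, hmem]
          by_cases hDw : D.Adj t w
          · exact Or.inl hDw
          · by_cases hXw : w ∈ X
            · exact Or.inr ⟨hw.1, hXw⟩
            · exact absurd (hST t ht (Finset.mem_inter.2 ⟨(hmem _ _ _).2 ⟨hw.1, hDw⟩,
                Finset.mem_sdiff.2 ⟨Finset.mem_univ _, hXw⟩⟩)) hw.2
        have h5 : (nb G t \ S).card ≤ (nb D t).card + (nb G t ∩ X).card :=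
          le_trans (Finset.card_le_card hs) (Finset.card_union_le _ _)
        have h6 : ((nb G t \ S).card : ℝ) ≤ ((nb D t).card : ℝ) + ((nb G t ∩ X).card : ℝ) := by
          exact_mod_cast h5
        have h7 := hD t
        have h8 := hX t
        linarith
      have h5 : ∑ t ∈ T, ((nb G t \ S).card : ℝ) ≤ T.card * (η / 50 * d) := by
        refine le_trans (Finset.sum_le_sum h4) ?_
        rw [Finset.sum_const, nsmul_eq_mul]
      have h6 : (0 : ℝ) < η * d * T.card := by positivity
      have h7 : (T.card : ℝ) * (η / 50 * d) = (η * d * T.card) / 50 := by ring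
      rw [h7] at h5
      linarith)
    (hO O hOC)
  refine ⟨M, hM1, hM2, ?_, ?_⟩
  · intro v w hvw
    exact (Finset.mem_sdiff.1 (hM3 v w hvw)).2
  · intro v hv hvX hvO
    exact hM4 v (Finset.mem_sdiff.2 ⟨hv, hvX⟩) hvO

end Pool.Agent.Work.MP_db9399_sc.helper6
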