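import Pool.Agent.Work.MP_db9399_sc.Interface
import Pool.Agent.Work.MP_db9399_all_helper6.LLLI

/-!
# Block TRV: two vertices in each of the disjoint sets, all of them independent
-/

set_option autoImplicit false

namespace Pool.Agent.Work.MP_db9399_sc.helper6

open Finset Classical
open Pool.Agent.Work.MP_db9399_all (nb pr DepOnI PackI)

universe u

/-- disjoint pairs of vertices of the same class -/
theorem pairing {V : Type u} (v0 : V) (J : V → ℕ) (χ : ℕ) (hJ : ∀ v, J v < χ) :
    ∀ (m : ℕ) (A : Finset V), χ + 2 * m ≤ A.card → ∃ g : ℕ → Bool → V,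
      (∀ i < m, ∀ b, g i b ∈ A) ∧ (∀ i < m, ∀ b b', J (g i b) = J (g i b')) ∧
      (∀ i < m, ∀ j < m, ∀ b b', g i b = g j b' → i = j ∧ b = b') := by
  intro m
  induction m with
  | zero =>
    intro A _
    exact ⟨fun _ _ => v0, by simp, by simp, by simp⟩
  | succ m ih =>
    intro A hA
    obtain ⟨x, hx, y, hy, hxy, hJxy⟩ := Finset.exists_ne_map_eq_of_card_lt_of_maps_to
      (s := A) (t := Finset.range χ) (f := J) (by rw [Finset.card_range]; omega)
      (fun v _ => Finset.mem_coe.2 (Finset.mem_range.2 (hJ v)))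
    obtain ⟨g, hg1, hg2, hg3⟩ := ih ((A.erase x).erase y) (by
      rw [Finset.card_erase_of_mem (Finset.mem_erase.2 ⟨hxy.symm, hy⟩),
        Finset.card_erase_of_mem hx]
      omega)
    have hgA : ∀ i < m, ∀ b, g i b ≠ x ∧ g i b ≠ y ∧ g i b ∈ A := by
      intro i hi b
      have h := hg1 i hi b
      rw [Finset.mem_erase, Finset.mem_erase] at h
      exact ⟨h.2.1, h.1, h.2.2⟩
    refine ⟨fun i b => if i = m then (if b then x else y) else g i b, ?_, ?_, ?_⟩
    · intro i hi b
      by_cases h : i = m
      · cases b <;> simp [h, hx, hy]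
      · simp only [h, if_false]
        exact (hgA i (by omega) b).2.2
    · intro i hi b b'
      by_cases h : i = m
      · cases b <;> cases b' <;> simp [h, hJxy]
      · simp only [h, if_false]
        exact hg2 i (by omega) b b'
    · intro i hi j hj b b' h
      by_cases h1 : i = m
      · by_cases h2 : j = m
        · subst h1
          subst h2
          refine ⟨rfl, ?_⟩
          cases b <;> cases b' <;> simp [hxy, hxy.symm] at h ⊢
        · exfalso
          simp only [h1, h2, if_true, if_false] at h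
          have h3 := hgA j (by omega) b'
          cases b
          · simp only [Bool.false_eq_true, if_false] at h
            exact h3.2.1 h.symm
          · simp only [if_true] at h
            exact h3.1 h.symm
      · by_cases h2 : j = m
        · exfalso
          simp only [h1, h2, if_true, if_false] at h
          have h3 := hgA i (by omega) b
          cases b'
          · simp only [Bool.false_eq_true, if_false] at h
            exact h3.2.1 h
          · simp only [if_true] at h
            exact h3.1 h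
        · simp only [h1, h2, if_false] at h
          exact hg3 i (by omega) j (by omega) b b' h

/-- probability of two given coordinates -/
theorem pr_two {J : Type u} [Fintype J] {m : ℕ} (hm : 0 < m) (x y : J) (hxy : x ≠ y)
    (i j : Fin m) : pr (fun f : J → Fin m => f x = i ∧ f y = j) = 1 / (m : ℝ) ^ 2 := by
  have h1 : (univ.filter (fun f : J → Fin m => f x = i ∧ f y = j)) =
      Fintype.piFinset (fun z : J => if z = x then {i} else if z = y then {j} else univ) := by
    ext f
    simp only [Finset.mem_filter, Finset.mem_univ, true_and, Fintype.mem_piFinset]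
    constructor
    · rintro ⟨h1, h2⟩ z
      by_cases hz : z = x
      · subst hz
        simp [h1]
      · by_cases hz' : z = y
        · subst hz'
          simp [hz, h2]
        · simp [hz, hz']
    · intro h
      refine ⟨by simpa using h x, ?_⟩
      have := h y
      simpa [hxy.symm] using this
  have h2 : (univ.filter (fun f : J → Fin m => f x = i ∧ f y = j)).card * m ^ 2 =
      m ^ Fintype.card J := by
    rw [h1, Fintype.card_piFinset]
    have e1 : ∀ z : J, (if z = x then ({i} : Finset (Fin m)) else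
        if z = y then {j} else univ).card * ((if z = x then m else 1) * (if z = y then m else 1))
        = m := by
      intro z
      by_cases hz : z = x
      · subst hz
        simp [hxy]
      · by_cases hz' : z = y
        · subst hz'
          simp [hz]
        · simp [hz, hz']
    have e2 : ∏ z : J, ((if z = x then m else 1) * (if z = y then m else 1)) = m ^ 2 := by
      rw [Finset.prod_mul_distrib, Finset.prod_ite_eq', Finset.prod_ite_eq']
      simp [sq]
    rw [← e2, ← Finset.prod_mul_distrib]
    rw [Finset.prod_congr rfl (fun z _ => e1 z), Finset.prod_const, Finset.card_univ]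
  have h3 : (Fintype.card (J → Fin m) : ℝ) = (m : ℝ) ^ Fintype.card J := by
    rw [Fintype.card_fun, Fintype.card_fin]
    push_cast
    rfl
  have hm' : (0 : ℝ) < m := by exact_mod_cast hm
  have h4 : (((univ.filter (fun f : J → Fin m => f x = i ∧ f y = j)).card : ℝ)) * (m : ℝ) ^ 2 =
      (m : ℝ) ^ Fintype.card J := by exact_mod_cast h2
  unfold pr
  rw [h3, ← h4]
  have h5 : (0 : ℝ) < (m : ℝ) ^ Fintype.card J := by positivity
  have h6 : (((univ.filter (fun f : J → Fin m => f x = i ∧ f y = j)).card : ℝ)) ≠ 0 := by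
    intro h
    rw [h, zero_mul] at h4
    exact h5.ne h4
  field_simp
  congr!

/-- BLOCK TRV -/
theorem stmt_TRV : Stmt_TRV.{u} := by
  refine ⟨1000, ?_⟩
  intro V _ G d χ J Cs A hd hχ hJ hprop hA hdis
  by_cases hCs : Cs = ∅
  · subst hCs
    exact ⟨∅, by simp, by simp, by simp⟩
  obtain ⟨C0, hC0⟩ := Finset.nonempty_iff_ne_empty.2 hCs
  have hA0 : (A C0).Nonempty := by
    rw [← Finset.card_pos]
    have := (hA C0 hC0).2.1
    omega
  obtain ⟨v0, _⟩ := hA0
  set m : ℕ := 3 * d / 25 with hm
  have hm1 : 3 * d < 25 * m + 25 := by omega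
  have hm2 : 25 * m ≤ 3 * d := by omega
  have hmpos : 0 < m := by omega
  have hpair : ∀ C : {C : Finset V // C ∈ Cs}, ∃ g : ℕ → Bool → V,
      (∀ i < m, ∀ b, g i b ∈ A C.1) ∧ (∀ i < m, ∀ b b', J (g i b) = J (g i b')) ∧
      (∀ i < m, ∀ j < m, ∀ b b', g i b = g j b' → i = j ∧ b = b') := by
    intro C
    refine pairing v0 J χ hJ m (A C.1) ?_
    have := (hA C.1 C.2).2.1
    omega
  choose g hg1 hg2 hg3 using hpair
  -- a vertex is in at most one pair of one set
  have huniq : ∀ (C C' : {C : Finset V // C ∈ Cs}) (i j : ℕ) (b b' : Bool), i < m → j < m →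
      g C i b = g C' j b' → C = C' ∧ i = j ∧ b = b' := by
    intro C C' i j b b' hi hj h
    have h1 : C = C' := by
      by_contra hne
      have h2 := hdis C.1 C.2 C'.1 C'.2 (fun h => hne (Subtype.ext h))
      exact Finset.disjoint_left.1 h2 ((hA C.1 C.2).1 (hg1 C i hi b))
        (h ▸ (hA C'.1 C'.2).1 (hg1 C' j hj b'))
    subst h1
    exact ⟨rfl, hg3 C i hi j hj b b' h⟩
  have hnadj : ∀ (C : {C : Finset V // C ∈ Cs}) (i : ℕ) (b b' : Bool), i < m →
      ¬ G.Adj (g C i b) (g C i b') := by
    intro C i b b' hi h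
    exact hprop _ _ h (hg2 C i hi b b')
  -- chosen vertices
  set sel : ({C : Finset V // C ∈ Cs} → Fin m) → V → Prop :=
    fun f v => ∃ C b, v = g C (f C) b with hsel
  -- the bad pairs
  set bad : V → V → {C : Finset V // C ∈ Cs} → {C : Finset V // C ∈ Cs} → Fin m → Fin m → Prop :=
    fun v w C C' i j => C ≠ C' ∧ G.Adj v w ∧ (∃ b, v = g C i b) ∧ ∃ b, w = g C' j b with hbad
  have hbadu : ∀ v w C C' i j D D' i' j', bad v w C C' i j → bad v w D D' i' j' →
      C = D ∧ C' = D' ∧ i = i' ∧ j = j' := by
    rintro v w C C' i j D D' i' j' ⟨_, _, ⟨b1, h1⟩, b2, h2⟩ ⟨_, _, ⟨b3, h3⟩, b4, h4⟩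
    have e1 := huniq C D i i' b1 b3 i.2 i'.2 (by rw [← h1, ← h3])
    have e2 := huniq C' D' j j' b2 b4 j.2 j'.2 (by rw [← h2, ← h4])
    exact ⟨e1.1, e2.1, Fin.ext e1.2.1, Fin.ext e2.2.1⟩
  set Sc : V × V → Finset {C : Finset V // C ∈ Cs} := fun r =>
    univ.filter (fun C => ∃ D i j, bad r.1 r.2 C D i j ∨ bad r.1 r.2 D C i j) with hSc
  set W : V × V → ℝ := fun r =>
    if ∃ C C' i j, bad r.1 r.2 C C' i j then 1 / (m : ℝ) ^ 2 * Real.exp 1 else 0 with hW
  have key := Pool.Agent.Work.MP_db9399_all.stmt_LLLI.{u} {C : Finset V // C ∈ Cs} m (V × V)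
    (1 / 4) Sc W (fun r f => ¬ (G.Adj r.1 r.2 ∧ sel f r.1 ∧ sel f r.2)) hmpos (by norm_num)
    (le_refl _) ?_ ?_
  · obtain ⟨f, hf⟩ := key
    refine ⟨univ.filter (fun v => sel f v), ?_, ?_, ?_⟩
    · intro v hv w hw hvw
      simp only [Finset.mem_filter, Finset.mem_univ, true_and] at hv hw
      exact hf (v, w) ⟨hvw, hv, hw⟩
    · intro v hv
      simp only [Finset.mem_filter, Finset.mem_univ, true_and] at hv
      obtain ⟨C, b, rfl⟩ := hv
      exact ⟨C.1, C.2, hg1 C _ (f C).2 b⟩
    · intro C hC
      have e1 : (univ.filter (fun v => sel f v)) ∩ C =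
          {g ⟨C, hC⟩ (f ⟨C, hC⟩) true, g ⟨C, hC⟩ (f ⟨C, hC⟩) false} := by
        ext v
        simp only [Finset.mem_inter, Finset.mem_filter, Finset.mem_univ, true_and,
          Finset.mem_insert, Finset.mem_singleton]
        constructor
        · rintro ⟨⟨C', b, rfl⟩, h⟩
          have h1 : C' = ⟨C, hC⟩ := by
            by_contra hne
            have h2 := hdis C'.1 C'.2 C hC (fun h => hne (Subtype.ext h))
            exact Finset.disjoint_left.1 h2 ((hA C'.1 C'.2).1 (hg1 C' _ (f C').2 b)) h
          subst h1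
          cases b
          · exact Or.inr rfl
          · exact Or.inl rfl
        · rintro (rfl | rfl)
          · exact ⟨⟨_, _, rfl⟩, (hA C hC).1 (hg1 ⟨C, hC⟩ _ (f _).2 true)⟩
          · exact ⟨⟨_, _, rfl⟩, (hA C hC).1 (hg1 ⟨C, hC⟩ _ (f _).2 false)⟩
      rw [e1, Finset.card_pair]
      intro h
      have := (hg3 ⟨C, hC⟩ _ (f ⟨C, hC⟩).2 _ (f ⟨C, hC⟩).2 true false h).2
      exact absurd this (by decide)
  · -- packages
    intro r
    by_cases hr : ∃ C C' i j, bad r.1 r.2 C C' i j
    · obtain ⟨C, C', i, j, hb⟩ := hr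
      refine ⟨PUnit, inferInstance, fun _ => {C, C'}, fun _ f => f C = i ∧ f C' = j,
        ?_, ?_, ?_, ?_, ?_⟩
      · intro _ f f' hff
        have h1 := hff C (by simp)
        have h2 := hff C' (by simp)
        simp only [h1, h2]
      · intro _
        exact ⟨C, by simp⟩
      · intro _ D hD
        rw [Finset.mem_insert, Finset.mem_singleton] at hD
        rw [hSc]
        simp only [Finset.mem_filter, Finset.mem_univ, true_and]
        rcases hD with rfl | rfl
        · exact ⟨C', i, j, Or.inl hb⟩
        · exact ⟨C, i, j, Or.inr hb⟩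
      · have hWr : W r = 1 / (m : ℝ) ^ 2 * Real.exp 1 := by
          rw [hW]
          exact if_pos ⟨C, C', i, j, hb⟩
        rw [hWr]
        simp only [Finset.univ_unique, Finset.sum_singleton]
        rw [Finset.card_pair hb.1, pr_two hmpos C C' hb.1 i j]
        norm_num
      · rintro f hf ⟨hadj, ⟨D, b, hD⟩, D', b', hD'⟩
        have hne : D ≠ D' := by
          rintro rfl
          rw [hD, hD'] at hadj
          exact hnadj D (f D) b b' (f D).2 hadj
        have hb2 : bad r.1 r.2 D D' (f D) (f D') := ⟨hne, hadj, ⟨b, hD⟩, b', hD'⟩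
        obtain ⟨e1, e2, e3, e4⟩ := hbadu _ _ _ _ _ _ _ _ _ _ hb hb2
        subst e1
        subst e2
        exact hf PUnit.unit ⟨e3.symm, e4.symm⟩
    · refine ⟨PEmpty, inferInstance, fun k => k.elim, fun k => k.elim, ?_, ?_, ?_, ?_, ?_⟩
      · intro k
        exact k.elim
      · intro k
        exact k.elim
      · intro k
        exact k.elim
      · have hWr : W r = 0 := by
          rw [hW]
          exact if_neg hr
        rw [hWr]
        simp
      · rintro f _ ⟨hadj, ⟨D, b, hD⟩, D', b', hD'⟩
        have hne : D ≠ D' := by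
          rintro rfl
          rw [hD, hD'] at hadj
          exact hnadj D (f D) b b' (f D).2 hadj
        exact hr ⟨D, D', f D, f D', hne, hadj, ⟨b, hD⟩, b', hD'⟩
  · -- the sums
    intro C
    set SV : Finset V := (univ : Finset (Fin m × Bool)).image (fun p => g C p.1 p.2) with hSV
    have hSVc : SV.card ≤ 2 * m := by
      refine le_trans Finset.card_image_le ?_
      rw [Finset.card_univ, Fintype.card_prod, Fintype.card_fin, Fintype.card_bool]
      omega
    set E1 : Finset (V × V) := SV.biUnion (fun v => (nb G v \ C.1).image (fun w => (v, w)))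
      with hE1
    set E2 : Finset (V × V) := SV.biUnion (fun v => (nb G v \ C.1).image (fun w => (w, v)))
      with hE2
    have hc : ∀ v ∈ SV, 400 * (nb G v \ C.1).card ≤ d := by
      intro v hv
      rw [hSV, Finset.mem_image] at hv
      obtain ⟨p, _, rfl⟩ := hv
      exact (hA C.1 C.2).2.2 _ (hg1 C p.1 p.1.2 p.2)
    have hcard : ∀ (F : V → Finset (V × V)), (∀ v ∈ SV, (F v).card ≤ (nb G v \ C.1).card) →
        400 * (SV.biUnion F).card ≤ 2 * m * d := by
      intro F hF
      have h1 : (SV.biUnion F).card ≤ ∑ v ∈ SV, (nb G v \ C.1).card :=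
        le_trans Finset.card_biUnion_le (Finset.sum_le_sum hF)
      have h2 : 400 * ∑ v ∈ SV, (nb G v \ C.1).card ≤ SV.card * d := by
        rw [Finset.mul_sum]
        refine le_trans (Finset.sum_le_sum hc) ?_
        rw [Finset.sum_const, smul_eq_mul]
      have h3 : SV.card * d ≤ 2 * m * d := Nat.mul_le_mul_right d hSVc
      omega
    have hsub : univ.filter (fun r : V × V => C ∈ Sc r) ⊆ E1 ∪ E2 := by
      intro r hr
      rw [hSc] at hr
      simp only [Finset.mem_filter, Finset.mem_univ, true_and] at hr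
      obtain ⟨D, i, j, hb | hb⟩ := hr
      · obtain ⟨hne, hadj, ⟨b, h1⟩, b', h2⟩ := hb
        refine Finset.mem_union_left _ ?_
        rw [hE1, Finset.mem_biUnion]
        refine ⟨r.1, ?_, ?_⟩
        · rw [hSV, Finset.mem_image]
          exact ⟨(i, b), Finset.mem_univ _, h1.symm⟩
        · rw [Finset.mem_image]
          refine ⟨r.2, ?_, rfl⟩
          rw [Finset.mem_sdiff]
          refine ⟨?_, ?_⟩
          · simpa [nb] using hadj
          · intro hC
            have h3 := hdis C.1 C.2 D.1 D.2 (fun h => hne (Subtype.ext h))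
            exact Finset.disjoint_left.1 h3 hC
              (h2 ▸ (hA D.1 D.2).1 (hg1 D j j.2 b'))
      · obtain ⟨hne, hadj, ⟨b, h1⟩, b', h2⟩ := hb
        refine Finset.mem_union_right _ ?_
        rw [hE2, Finset.mem_biUnion]
        refine ⟨r.2, ?_, ?_⟩
        · rw [hSV, Finset.mem_image]
          exact ⟨(j, b'), Finset.mem_univ _, h2.symm⟩
        · rw [Finset.mem_image]
          refine ⟨r.1, ?_, rfl⟩
          rw [Finset.mem_sdiff]
          refine ⟨?_, ?_⟩
          · simpa [nb] using hadj.symm
          · intro hC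
            have h3 := hdis C.1 C.2 D.1 D.2 (fun h => hne (Subtype.ext h.symm))
            exact Finset.disjoint_left.1 h3 hC
              (h1 ▸ (hA D.1 D.2).1 (hg1 D i i.2 b))
    have hWle : ∀ r, W r ≤ 1 / (m : ℝ) ^ 2 * Real.exp 1 := by
      intro r
      rw [hW]
      dsimp only
      split_ifs
      · exact le_refl _
      · positivity
    have hsum : ∑ r ∈ univ.filter (fun r : V × V => C ∈ Sc r), W r ≤
        ((E1 ∪ E2).card : ℝ) * (1 / (m : ℝ) ^ 2 * Real.exp 1) := by
      refine le_trans (Finset.sum_le_sum (fun r _ => hWle r)) ?_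
      rw [Finset.sum_const, nsmul_eq_mul]
      refine mul_le_mul_of_nonneg_right ?_ (by positivity)
      exact_mod_cast Finset.card_le_card hsub
    refine le_trans (b := ∑ r ∈ univ.filter (fun r : V × V => C ∈ Sc r), W r) (le_of_eq ?_)
      (le_trans hsum ?_)
    · congr!
    have hEc : 100 * ((E1 ∪ E2).card : ℝ) ≤ m * d := by
      have h1 := hcard (fun v => (nb G v \ C.1).image (fun w => (v, w)))
        (fun v _ => Finset.card_image_le)
      have h2 := hcard (fun v => (nb G v \ C.1).image (fun w => (w, v)))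
        (fun v _ => Finset.card_image_le)
      have h3 : (E1 ∪ E2).card ≤ E1.card + E2.card := Finset.card_union_le _ _
      have h4 : 100 * (E1 ∪ E2).card ≤ m * d := by
        have h1' : 400 * E1.card ≤ 2 * m * d := h1
        have h2' : 400 * E2.card ≤ 2 * m * d := h2
        nlinarith
      exact_mod_cast h4
    have hm' : (0 : ℝ) < m := by exact_mod_cast hmpos
    have hdm : 11 * (d : ℝ) ≤ 100 * m := by
      have : 11 * d ≤ 100 * m := by omega
      exact_mod_cast this
    have hexp : Real.exp 1 ≤ 2.7182818286 := Real.exp_one_lt_d9.le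
    have h1 : ((E1 ∪ E2).card : ℝ) * (1 / (m : ℝ) ^ 2) ≤ 1 / 11 := by
      rw [mul_one_div, div_le_div_iff₀ (by positivity) (by norm_num)]
      nlinarith
    calc ((E1 ∪ E2).card : ℝ) * (1 / (m : ℝ) ^ 2 * Real.exp 1)
        = ((E1 ∪ E2).card : ℝ) * (1 / (m : ℝ) ^ 2) * Real.exp 1 := by ring
      _ ≤ 1 / 11 * Real.exp 1 := mul_le_mul_of_nonneg_right h1 (Real.exp_pos _).le
      _ ≤ 1 / 4 := by linarith

end Pool.Agent.Work.MP_db9399_sc.helper6
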